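import Mathlib

set_option linter.unusedSectionVars false
set_option linter.unusedVariables false
set_option linter.dupNamespace false

namespace Pool.Agent.H.MP_74bc7f_pr

open Finset Filter Topology
open scoped ENNReal

section defs
variable {V : Type} (a : V → V → ℕ)

/-- Symmetric multiplicities, `d`-regular, connected. -/
def Reg (d : ℕ) : Prop :=
  (∀ x y, a x y = a y x) ∧ (∀ x, ∑' y, (a x y : ℝ≥0∞) = d) ∧
    ∀ x y, Relation.ReflTransGen (fun u v => 0 < a u v) x y

open Classical in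
/-- Transition probabilities of simple random walk. -/
noncomputable def tp (d : ℕ) : ℕ → V → V → ℝ≥0∞
  | 0, x, y => if x = y then 1 else 0
  | n + 1, x, y => ∑' z, (a x z : ℝ≥0∞) / d * tp d n z y

/-- Spectral radius seen from `o`. -/
noncomputable def rho (d : ℕ) (o : V) : ℝ≥0∞ :=
  limsup (fun n : ℕ => tp a d (2 * n) o o ^ (1 / (2 * n : ℝ))) atTop

/-- Mass transport principle for a root uniform on `R`. -/
def MTP (R : Finset V) : Prop :=
  ∀ F : V → V → ℝ≥0∞, (∀ e : V ≃ V, (∀ x y, a (e x) (e y) = a x y) → ∀ x y, F (e x) (e y) = F x y) →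
    ∑ o ∈ R, ∑' x, F o x = ∑ o ∈ R, ∑' x, F x o

end defs

lemma rsym {α : Type} {r : α → α → Prop} (h : ∀ u v, r u v → r v u) {u v : α}
    (k : Relation.ReflTransGen r u v) : Relation.ReflTransGen r v u := by
  induction k with
  | refl => exact .refl
  | tail _ h' ih => exact .head (h _ _ h') ih

section dart
variable {V : Type} {d : ℕ} (t : V × Fin d → V × Fin d)

open Classical in
noncomputable def mu (x y : V) : ℕ := #{c | (t (x, c)).1 = y}

variable {t}

lemma mu_le (hi : Function.Involutive t) (x y : V) : mu t x y ≤ mu t y x := by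
  classical
  refine card_le_card_of_injOn (fun c => (t (x, c)).2) (fun c hc => ?_) fun c hc c' hc' e => ?_
  · simp only [coe_filter, mem_univ, true_and, Set.mem_ofPred] at hc ⊢
    rw [← hc, Prod.mk.eta, hi]
  · simp only [coe_filter, mem_univ, true_and, Set.mem_ofPred] at hc hc'
    exact (Prod.mk.inj (hi.injective (Prod.ext (hc.trans hc'.symm) e))).2

lemma mu_sum (x : V) (g : V → ℝ≥0∞) : ∑' y, (mu t x y : ℝ≥0∞) * g y = ∑ c, g (t (x, c)).1 := by
  classical
  simp only [mu, card_filter, Nat.cast_sum, sum_mul]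
  rw [Summable.tsum_finsetSum fun _ _ => ENNReal.summable]
  refine sum_congr rfl fun c _ => ?_
  rw [tsum_eq_single (t (x, c)).1 fun y hy => by simp [Ne.symm hy]]
  simp

lemma mu_pos (x : V) (c : Fin d) : 0 < mu t x (t (x, c)).1 := by
  classical
  exact card_pos.2 ⟨c, by simp⟩

lemma rho_le (hd : 0 < d) {f : V → ℝ} (f0 : ∀ x, 0 < f x) {lam : ℝ} (l0 : 0 < lam)
    (h : ∀ x, ∑ c, f (t (x, c)).1 ≤ lam * f x) (o : V) :
    rho (mu t) d o ≤ ENNReal.ofReal (lam / d) := by
  have d0 : (0 : ℝ) < d := Nat.cast_pos.2 hd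
  have k : ∀ n x, tp (mu t) d n x o ≤ ENNReal.ofReal ((lam / d) ^ n * (f x / f o)) := fun n => by
    induction n with
    | zero =>
      intro x
      rw [tp]
      split_ifs with e
      · simp [e, (f0 o).ne']
      · exact zero_le
    | succ n ih =>
      intro x
      simp only [tp, div_eq_mul_inv (_ : ℝ≥0∞), mul_assoc]
      rw [mu_sum, ← mul_sum]
      refine (mul_le_mul_right (sum_le_sum fun c _ => ih _) _).trans ?_
      rw [← ENNReal.ofReal_sum_of_nonneg fun c _ => by have := f0 (t (x, c)).1; have := f0 o; positivity,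
        ← ENNReal.ofReal_natCast, ← ENNReal.ofReal_inv_of_pos d0, ← ENNReal.ofReal_mul (by positivity),
        ← mul_sum, ← sum_div]
      refine ENNReal.ofReal_le_ofReal (le_of_le_of_eq (mul_le_mul_of_nonneg_left
        (mul_le_mul_of_nonneg_left (div_le_div_of_nonneg_right (h x) (f0 o).le) (by positivity))
        (by positivity)) (by ring))
  refine limsup_le_of_le (h := (eventually_gt_atTop 0).mono fun n hn => ?_)
  have := k (2 * n) o
  rw [div_self (f0 o).ne', mul_one, ENNReal.ofReal_pow (by positivity)] at this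
  refine (ENNReal.rpow_le_rpow this (by positivity)).trans_eq ?_
  rw [← ENNReal.rpow_natCast, ← ENNReal.rpow_mul]
  have : (n : ℝ) ≠ 0 := Nat.cast_ne_zero.2 hn.ne'
  push_cast
  rw [mul_one_div_cancel (by positivity), ENNReal.rpow_one]

end dart

section cover
variable {X : Type} [DecidableEq X] {d : ℕ} (rv : X × Fin d → X × Fin d) (sg : X × Fin d → Bool)

def lt (e : X × Fin d) : (X × Fin d) × Bool := (if sg e then e else rv e, sg e)

def vol (e : X × Fin d) : FreeGroup (X × Fin d) := if rv e = e then 1 else FreeGroup.mk [lt rv sg e]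

def T (p : (X × FreeGroup (X × Fin d)) × Fin d) : (X × FreeGroup (X × Fin d)) × Fin d :=
  (((rv (p.1.1, p.2)).1, vol rv sg (p.1.1, p.2) * p.1.2), (rv (p.1.1, p.2)).2)

def ul (l : (X × Fin d) × Bool) : X × Fin d := if l.2 then l.1 else rv l.1

variable {rv sg} (hi : Function.Involutive rv) (hs : ∀ e, rv e ≠ e → sg (rv e) = !sg e)
include hi

lemma ul_lt (e : X × Fin d) : ul rv (lt rv sg e) = e := by
  unfold ul lt; cases sg e <;> simp [hi e]

include hs

lemma lt_rv {e : X × Fin d} (h : rv e ≠ e) : lt rv sg (rv e) = ((lt rv sg e).1, !(lt rv sg e).2) := by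
  unfold lt; rw [hs e h]; cases sg e <;> simp [hi e]

lemma vol_rv (e : X × Fin d) : vol rv sg (rv e) * vol rv sg e = 1 := by
  unfold vol
  by_cases h : rv e = e
  · simp [h]
  · rw [if_neg h, hi e, if_neg (Ne.symm h), lt_rv hi hs h, mul_eq_one_iff_eq_inv, FreeGroup.inv_mk]
    rfl

lemma T_i : Function.Involutive (T rv sg) := fun p => by
  simp only [T, Prod.mk.eta, hi _, ← mul_assoc, vol_rv hi hs, one_mul]

lemma word {e : X × Fin d} (h : rv e ≠ e) (φ : FreeGroup (X × Fin d)) :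
    (vol rv sg e * φ).toWord = lt rv sg e :: φ.toWord ∧ φ.toWord.head? ≠ some (lt rv sg (rv e)) ∨
      φ.toWord = lt rv sg (rv e) :: (vol rv sg e * φ).toWord := by
  have : (vol rv sg e * φ).toWord = FreeGroup.reduce (lt rv sg e :: φ.toWord) := by
    conv_lhs => rw [vol, if_neg h, ← φ.mk_toWord, FreeGroup.mul_mk, FreeGroup.toWord_mk]
    rfl
  rw [this, FreeGroup.reduce.cons, FreeGroup.reduce_toWord, lt_rv hi hs h]
  rcases φ.toWord with _ | ⟨l, w⟩
  · simp
  · simp only
    split_ifs with h'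
    · right; rw [h'.1, h'.2]; simp
    · left; refine ⟨rfl, fun e => h' ?_⟩
      simp only [List.head?_cons, Option.some.injEq] at e
      simp [e]

omit hi hs in
theorem cover [Countable X] (hi : Function.Involutive rv) (hd : 0 < d) (S : Finset X) {x0 : X}
    (h0 : x0 ∈ S) (hS : ∀ x ∈ S, ∀ c, (rv (x, c)).1 ∈ S)
    (conn : ∀ x ∈ S, Relation.ReflTransGen (fun x y => ∃ c, (rv (x, c)).1 = y) x0 x)
    {M : X × Fin d → ℝ} (M0 : ∀ e, 0 < M e) (M1 : ∀ e, e.1 ∈ S → rv e = e → M e = 1) {lam : ℝ}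
    (h1 : ∀ x ∈ S, ∑ c, M (x, c) ≤ lam)
    (h2 : ∀ x ∈ S, ∀ c, rv (x, c) ≠ (x, c) → (M (rv (x, c)))⁻¹ + ∑ c', M (x, c') - M (x, c) ≤ lam)
    (h3 : ∀ x ∈ S, ∀ c0, ∃ c ≠ c0, rv (x, c) ≠ (x, c)) (L : Finset X) (hL : L ⊆ S)
    (hl : ∀ x ∈ L, ∃ c, rv (x, c) = (x, c)) :
    ∃ (V : Type) (a : V → V → ℕ) (R : Finset V), Countable V ∧ Infinite V ∧ Reg a d ∧ MTP a R ∧
      (∀ o, rho a d o ≤ ENNReal.ofReal (lam / d)) ∧ #R = #S ∧ #L ≤ #{o ∈ R | 1 ≤ a o o} := by
  classical
  obtain ⟨en, hen⟩ := exists_injective_nat (X × Fin d)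
  obtain ⟨sg, hs⟩ : ∃ sg : X × Fin d → Bool, ∀ e, rv e ≠ e → sg (rv e) = !sg e :=
    ⟨fun e => decide (en e < en (rv e)), fun e h => by
      have := hen.ne h
      simp only [hi e]; by_cases h' : en e < en (rv e) <;> simp [h'] <;> omega⟩
  have Ti := T_i hi hs
  let r : X × FreeGroup (X × Fin d) → X × FreeGroup (X × Fin d) → Prop :=
    fun u v => ∃ c, (T rv sg (u, c)).1 = v
  have rs : ∀ {u v}, Relation.ReflTransGen r u v → Relation.ReflTransGen r v u := fun h =>
    rsym (fun u v ⟨c, hc⟩ => ⟨(T rv sg (u, c)).2, by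
      rw [← hc, Prod.mk.eta, Ti]⟩) h
  have rm : ∀ {u v} (δ : FreeGroup (X × Fin d)), Relation.ReflTransGen r u v →
      Relation.ReflTransGen r (u.1, u.2 * δ) (v.1, v.2 * δ) := fun δ h =>
    h.lift (fun u => (u.1, u.2 * δ)) fun u v ⟨c, hc⟩ => ⟨c, by simp [← hc, T, mul_assoc]⟩
  let V := {v // Relation.ReflTransGen r (x0, 1) v}
  have vS : ∀ v : V, v.1.1 ∈ S := fun ⟨v, h⟩ => by
    induction h with
    | refl => exact h0
    | tail _ h ih => obtain ⟨c, rfl⟩ := h; exact hS _ ih c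
  let t : V × Fin d → V × Fin d := fun p =>
    (⟨(T rv sg (p.1.1, p.2)).1, p.1.2.tail ⟨p.2, rfl⟩⟩, (T rv sg (p.1.1, p.2)).2)
  have ti : Function.Involutive t := fun p =>
    Prod.ext (Subtype.ext (congrArg Prod.fst (Ti (p.1.1, p.2)))) (congrArg Prod.snd (Ti (p.1.1, p.2)) :)
  have rep : ∀ x ∈ S, ∃ v : V, v.1.1 = x := fun x hx => by
    have := conn x hx
    clear hx
    induction this with
    | refl => exact ⟨⟨_, .refl⟩, rfl⟩
    | tail _ h ih => obtain ⟨c, rfl⟩ := h; obtain ⟨v, rfl⟩ := ih; exact ⟨(t (v, c)).1, rfl⟩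
  have : Nonempty V := ⟨⟨_, .refl⟩⟩
  choose! o ho using rep
  have oi : Set.InjOn o S := fun x hx y hy e => by rw [← ho x hx, ← ho y hy, e]
  have dk : ∀ u v w : V, u.1.1 = v.1.1 →
      Relation.ReflTransGen r (x0, 1) (w.1.1, w.1.2 * (u.1.2⁻¹ * v.1.2)) := fun u v w e =>
    v.2.trans (by simpa [e] using rm (u.1.2⁻¹ * v.1.2) ((rs u.2).trans w.2))
  have deck : ∀ u v : V, u.1.1 = v.1.1 → ∃ e : V ≃ V, (∀ x y, mu t (e x) (e y) = mu t x y) ∧
      ∀ w, (e w).1 = (w.1.1, w.1.2 * (u.1.2⁻¹ * v.1.2)) := fun u v h => by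
    refine ⟨⟨fun w => ⟨_, dk u v w h⟩, fun w => ⟨_, dk v u w h.symm⟩, fun w => Subtype.ext (by simp [mul_assoc]),
      fun w => Subtype.ext (by simp [mul_assoc])⟩, fun x y => ?_, fun w => rfl⟩
    unfold mu
    congr 1; ext c
    simp only [mem_filter, mem_univ, true_and]
    rw [Subtype.ext_iff, Subtype.ext_iff]
    simp [t, T, Prod.ext_iff, ← mul_assoc]
  have l0 : 0 < lam := (sum_pos (fun c _ => M0 _) ⟨⟨0, hd⟩, mem_univ _⟩).trans_le (h1 x0 h0)
  refine ⟨V, mu t, S.image o, inferInstance, ?_, ⟨fun x y => (mu_le ti x y).antisymm (mu_le ti y x),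
    fun x => by simpa using mu_sum (t := t) x fun _ => 1, ?_⟩, fun F hF => ?_,
    rho_le hd (f := fun v => (v.1.2.toWord.map fun l => M (ul rv l)).prod)
      (fun v => List.prod_pos (List.forall_mem_map.2 fun _ _ => M0 _)) l0 fun v => ?_, card_image_of_injOn oi, ?_⟩
  · have : ∀ n, ∃ v : V, v.1.2.toWord.length = n := fun n => by
      induction n with
      | zero => exact ⟨⟨_, .refl⟩, rfl⟩
      | succ n ih =>
        obtain ⟨v, rfl⟩ := ih
        obtain ⟨c, -, hc⟩ := h3 _ (vS v) ⟨0, hd⟩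
        rcases word hi hs hc v.1.2 with h | h
        · exact ⟨(t (v, c)).1, congrArg List.length h.1⟩
        obtain ⟨c', n', hc'⟩ := h3 _ (vS v) c
        rcases word hi hs hc' v.1.2 with h' | h'
        · exact ⟨(t (v, c')).1, congrArg List.length h'.1⟩
        have := congrArg (ul rv) (List.cons.inj (h.symm.trans h')).1
        rw [ul_lt hi, ul_lt hi] at this
        exact absurd (Prod.mk.inj (hi.injective this)).2.symm n'
    exact .of_surjective (fun v : V => v.1.2.toWord.length) this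
  · have k : ∀ y : V, Relation.ReflTransGen (fun u v => 0 < mu t u v) ⟨_, .refl⟩ y := fun ⟨y, h⟩ => by
      induction h with
      | refl => exact .refl
      | tail h' h ih => obtain ⟨c, rfl⟩ := h; exact ih.tail (mu_pos (t := t) ⟨_, h'⟩ c)
    exact fun x y => (rsym
      (fun u v h => h.trans_le (mu_le ti u v)) (k x)).trans (k y)
  · rw [sum_image oi, sum_image oi, ← sum_coe_sort S, ← sum_coe_sort S, ← tsum_fintype (L := .unconditional _),
      ← tsum_fintype (L := .unconditional _), ← ENNReal.tsum_prod, ← ENNReal.tsum_prod]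
    let j : S × V → S × V := fun p => (⟨p.2.1.1, vS _⟩, ⟨_, dk p.2 (o p.2.1.1) (o p.1)
      (ho _ (vS _)).symm⟩)
    have ji : Function.Involutive j := fun p =>
      Prod.ext (Subtype.ext (ho _ p.1.2)) (Subtype.ext (Prod.ext (ho _ (vS _)) (by
        simp [j, ho _ p.1.2])))
    rw [← ji.toPerm.tsum_eq]
    refine tsum_congr fun p => ?_
    obtain ⟨e, he, hw⟩ := deck p.2 (o p.2.1.1) (ho _ (vS _)).symm
    rw [← hF e he p.2]
    congr 1
    · exact Subtype.ext (by simp [hw, j, Prod.ext_iff, ho _ (vS _)])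
    · exact Subtype.ext (hw _).symm
  · have P0 : 0 < (v.1.2.toWord.map fun l => M (ul rv l)).prod := List.prod_pos (List.forall_mem_map.2 fun _ _ => M0 _)
    have gen : ∀ c, (rv (v.1.1, c) ≠ (v.1.1, c) → v.1.2.toWord.head? ≠
        some (lt rv sg (rv (v.1.1, c)))) → ((t (v, c)).1.1.2.toWord.map fun l => M (ul rv l)).prod =
        M (v.1.1, c) * (v.1.2.toWord.map fun l => M (ul rv l)).prod := fun c hc => by
      by_cases h : rv (v.1.1, c) = (v.1.1, c)
      · simp [t, T, vol, h, M1 _ (vS v) h]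
      · rcases word hi hs h v.1.2 with h' | h'
        · simp only [t, T]; rw [h'.1]; simp [ul_lt hi]
        · exact absurd (by rw [h']; rfl) (hc h)
    by_cases hc : ∃ c, rv (v.1.1, c) ≠ (v.1.1, c) ∧
        v.1.2.toWord.head? = some (lt rv sg (rv (v.1.1, c)))
    · obtain ⟨c, hc, e⟩ := hc
      have h' := (word hi hs hc v.1.2).resolve_left fun h => h.2 e
      have e1 : ((t (v, c)).1.1.2.toWord.map fun l => M (ul rv l)).prod =
          (M (rv (v.1.1, c)))⁻¹ * (v.1.2.toWord.map fun l => M (ul rv l)).prod := by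
        rw [h']; simp [ul_lt hi, (M0 _).ne', t, T]
      rw [← add_sum_erase _ _ (mem_univ c), e1, sum_congr rfl fun c' hc' => gen c' fun _ e' => by
        have := congrArg (ul rv) (Option.some.inj (e.symm.trans e'))
        rw [ul_lt hi, ul_lt hi] at this
        exact (mem_erase.1 hc').1 (Prod.mk.inj (hi.injective this)).2.symm, ← sum_mul, ← add_mul,
        sum_erase_eq_sub (mem_univ c), ← add_sub_assoc]
      exact mul_le_mul_of_nonneg_right (h2 _ (vS v) c hc) P0.le
    · rw [sum_congr rfl fun c _ => gen c fun h e => hc ⟨c, h, e⟩, ← sum_mul]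
      exact mul_le_mul_of_nonneg_right (h1 _ (vS v)) P0.le
  · refine card_le_card_of_injOn o (fun x hx => ?_) (oi.mono hL)
    obtain ⟨c, hc⟩ := hl x hx
    simp only [coe_filter, Set.mem_ofPred]
    refine ⟨mem_image_of_mem _ (hL hx), ?_⟩
    have := mu_pos (t := t) (o x) c
    rwa [show (t (o x, c)).1 = o x from Subtype.ext (by
      simp [t, T, vol, ho x (hL hx), hc, Prod.ext_iff])] at this

end cover

end Pool.Agent.H.MP_74bc7f_pr
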