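import Pool.Agent.H.MP_74bc7f_pr.A

set_option linter.unusedSectionVars false
set_option linter.unusedVariables false
set_option linter.dupNamespace false

namespace Pool.Agent.H.MP_74bc7f_pr

open Finset Filter Topology
open scoped ENNReal

variable {D : ℕ} (k : ℕ)

def up (b : Bool) : List (Fin D) → (List (Fin D) × Bool) × Fin (D + 1)
  | [] => (([], b), 0)
  | j :: u => if u.length < k then ((u, b), j.succ) else ((j :: u, b), 0)

def rv (e : (List (Fin D) × Bool) × Fin (D + 1)) : (List (Fin D) × Bool) × Fin (D + 1) :=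
  Fin.cases (up k e.1.2 e.1.1) (fun j => if e.1.1.length < k then ((j :: e.1.1, e.1.2), 0) else
    ((e.1.1, !e.1.2), j.succ)) e.2

lemma rv_i : Function.Involutive (rv (D := D) k) := by
  rintro ⟨⟨w, b⟩, c⟩
  refine Fin.cases ?_ (fun j => ?_) c
  · rcases w with _ | ⟨j, u⟩
    · simp [rv, up]
    · by_cases h : u.length < k <;> simp [rv, up, h]
  · by_cases h : w.length < k <;> simp [rv, up, h]

lemma rv_s (x : List (Fin D) × Bool) (j : Fin D) : rv k (x, j.succ) ≠ (x, j.succ) := by
  obtain ⟨w, b⟩ := x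
  by_cases h : w.length < k <;> simp [rv, h]

noncomputable def TT (D k : ℕ) : Finset (List (Fin D)) := (List.finite_length_le (Fin D) k).toFinset

lemma mem_TT {w : List (Fin D)} : w ∈ TT D k ↔ w.length ≤ k := by simp [TT]

lemma TT_c (hD : 2 ≤ D) : #(TT D k) + 1 ≤ 2 * D ^ k := by
  induction k with
  | zero =>
    have : TT D 0 = {[]} := by ext w; simp [mem_TT]
    simp [this]
  | succ k ih =>
    have : TT D (k + 1) ⊆ insert [] ((univ ×ˢ TT D k).image fun p => p.1 :: p.2) := fun w hw => by
      rcases w with _ | ⟨j, u⟩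
      · simp
      · simpa [mem_TT] using hw
    have h := (card_le_card this).trans ((card_insert_le _ _).trans
      (Nat.add_le_add_right card_image_le 1))
    rw [card_product, card_univ, Fintype.card_fin] at h
    have := Nat.mul_le_mul_left D ih
    rw [pow_succ]
    linarith

noncomputable def BB (s : ℝ) (i : ℕ) : ℝ := s * (s + (s ^ 2) ^ i) / (s + (s ^ 2) ^ (i + 1))

theorem base (hD : 2 ≤ D) : ∃ (V : Type) (a : V → V → ℕ) (R : Finset V), Countable V ∧ Infinite V ∧
    Reg a (D + 1) ∧ MTP a R ∧ (∀ o, rho a (D + 1) o ≤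
      ENNReal.ofReal ((2 * √D + ((D : ℝ) ^ k)⁻¹) / (D + 1 : ℕ))) ∧ #R = #(TT D k) * 2 ∧
      2 ≤ #{o ∈ R | 1 ≤ a o o} := by
  obtain ⟨s, hs⟩ : ∃ s, s = √(D : ℝ) := ⟨_, rfl⟩
  have D2 : (2 : ℝ) ≤ D := by exact_mod_cast hD
  have e : (D : ℝ) = s ^ 2 := by rw [hs, Real.sq_sqrt (by positivity)]
  have s0 : 0 < s := hs ▸ Real.sqrt_pos.2 (by linarith)
  have sm : ∀ (x : List (Fin D) × Bool), ∑ c : Fin (D + 1), Fin.cases (motive := fun _ => ℝ)
      (BB s x.1.length) (fun _ => s⁻¹) c = BB s x.1.length + s := fun x => by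
    simp only [Fin.sum_univ_succ, Fin.cases_zero, Fin.cases_succ, sum_const, card_univ,
      Fintype.card_fin, nsmul_eq_mul, e]
    field_simp
  have p0 : 0 < ((D : ℝ) ^ k)⁻¹ := by positivity
  have dn : ∀ b (w : List (Fin D)), w.length ≤ k → Relation.ReflTransGen
      (fun x y => ∃ c, (rv k (x, c)).1 = y) ([], b) (w, b) := fun b w hw => by
    induction w with
    | nil => exact .refl
    | cons j u ih =>
      have : u.length < k := hw
      exact (ih this.le).tail ⟨j.succ, by simp [rv, this]⟩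
  refine Exists.imp (fun V => Exists.imp fun a => Exists.imp fun R ⟨h1, h2, h3, h4, h5, h6, h7⟩ =>
    ⟨h1, h2, h3, h4, h5, by simpa using h6, by simpa using h7⟩) <| cover (rv_i (D := D) k) D.succ_pos
    (TT D k ×ˢ univ) (x0 := ([], false)) (by simp [mem_TT]) (fun ⟨w, b⟩ hx c => ?_)
    (fun ⟨w, b⟩ hx => ?_) (M := fun e => Fin.cases (motive := fun _ => ℝ) (BB s e.1.1.length)
      (fun _ => s⁻¹) e.2) (fun ⟨x, c⟩ => ?_) (fun ⟨⟨w, b⟩, c⟩ hx => ?_)
    (lam := 2 * √D + ((D : ℝ) ^ k)⁻¹) (fun x hx => ?_) (fun ⟨w, b⟩ hx c => ?_) (fun x hx c => ?_)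
    ({[]} ×ˢ univ) (product_subset_product_left (by simp [mem_TT])) fun ⟨w, b⟩ hx => ⟨0, by
      obtain rfl : w = [] := mem_singleton.1 (mem_product.1 hx).1
      rfl⟩
  · simp only [mem_product, mem_TT, mem_univ, and_true] at hx ⊢
    refine Fin.cases ?_ (fun j => ?_) c
    · rcases w with _ | ⟨j, u⟩
      · simp [rv, up]
      · have : u.length < k := hx
        simp [rv, up, this, this.le]
    · by_cases h : w.length < k
      · simpa [rv, h] using h
      · simpa [rv, h] using hx
  · simp only [mem_product, mem_TT, mem_univ, and_true] at hx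
    cases b
    · exact dn _ w hx
    have l : (List.replicate k (⟨0, by omega⟩ : Fin D)).length ≤ k := by simp
    refine (((dn false _ l).tail ⟨Fin.succ ⟨0, by omega⟩, by simp [rv]⟩).trans
      (rsym (fun u v ⟨c, hc⟩ => ⟨(rv k (u, c)).2, ?_⟩) (dn true _ l))).trans (dn _ w hx)
    rw [← hc, Prod.mk.eta, rv_i]
  · refine Fin.cases ?_ (fun j => ?_) c
    · simp only [Fin.cases_zero, BB]; positivity
    · simpa
  · simp only [mem_product, mem_TT, mem_univ, and_true] at hx
    refine Fin.cases ?_ (fun j h => absurd h (rv_s k _ j)) c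
    rcases w with _ | ⟨j, u⟩
    · intro; simp only [Fin.cases_zero, BB, List.length_nil]; field_simp; ring
    · have : u.length < k := hx
      simp [rv, up, this]
  · have : BB s x.1.length ≤ s := by
      rw [BB, mul_div_assoc]
      refine mul_le_of_le_one_right s0.le (div_le_one_of_le₀ ?_ (by positivity))
      exact add_le_add le_rfl (pow_le_pow_right₀ (by linarith) (Nat.le_succ _))
    rw [sm, ← hs]; linarith
  · simp only [mem_product, mem_TT, mem_univ, and_true] at hx
    rw [sm, ← hs]
    refine Fin.cases ?_ (fun j _ => ?_) c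
    · rcases w with _ | ⟨j, u⟩
      · simp [rv, up]
      · have : u.length < k := hx
        simp only [rv, up, this, Fin.cases_zero, if_true, Fin.cases_succ, inv_inv]
        intro; linarith
    by_cases h : w.length < k
    · simp only [rv, h, Fin.cases_zero, if_true, Fin.cases_succ, List.length_cons]
      have : (BB s (w.length + 1))⁻¹ + (BB s w.length + s) - s⁻¹ = 2 * s := by
        simp only [BB]; field_simp; ring
      linarith
    · obtain rfl : w.length = k := by omega
      simp only [rv, h, if_false, Fin.cases_succ, inv_inv]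
      have e1 : BB s w.length - s⁻¹ = (s ^ 2 - 1) / (s + (s ^ 2) ^ (w.length + 1)) := by
        simp only [BB]; field_simp; ring
      have : (s ^ 2 - 1) / (s + (s ^ 2) ^ (w.length + 1)) ≤ ((D : ℝ) ^ w.length)⁻¹ := by
        rw [e, div_le_iff₀ (by positivity), le_inv_mul_iff₀ (by positivity), pow_succ (s ^ 2)]
        have : 0 < (s ^ 2) ^ w.length := by positivity
        linarith
      linarith
  · by_cases h : c = Fin.succ ⟨0, by omega⟩
    · exact ⟨Fin.succ ⟨1, by omega⟩, by simp [h], rv_s k _ _⟩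
    · exact ⟨_, Ne.symm h, rv_s k _ _⟩

end Pool.Agent.H.MP_74bc7f_pr
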